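import Pool.Agent.GLE.StmtsA

/-!
# Squad GLE, row BES: Bessel inequality on circles, integrated over an annulus
-/

open scoped ComplexConjugate
open MeasureTheory Complex

noncomputable section

namespace Pool.Agent.GLE.H92

/-- the point of the circle of radius `r` with argument `x` -/
def cp (r x : ℝ) : ℂ := (r : ℂ) * exp (x * I)

theorem norm_cp {r : ℝ} (hr : 0 ≤ r) (x : ℝ) : ‖cp r x‖ = r := by
  unfold cp
  rw [norm_mul, Complex.norm_exp_ofReal_mul_I, mul_one, Complex.norm_real, Real.norm_eq_abs,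
    abs_of_nonneg hr]

theorem int_exp (k : ℤ) : ∫ x in (-Real.pi)..Real.pi, exp ((k : ℂ) * I * x) =
    if k = 0 then (2 * Real.pi : ℂ) else 0 := by
  by_cases hk : k = 0
  · rw [if_pos hk, hk]
    simp
    ring
  · rw [if_neg hk, integral_exp_mul_complex (mul_ne_zero (by exact_mod_cast hk) I_ne_zero)]
    have h : exp ((k : ℂ) * I * (Real.pi : ℝ)) = exp ((k : ℂ) * I * ((-Real.pi : ℝ) : ℂ)) := by
      have h1 := Complex.exp_periodic.int_mul k ((k : ℂ) * I * ((-Real.pi : ℝ) : ℂ))
      rw [← h1]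
      congr 1
      push_cast
      ring
    rw [h, sub_self, zero_div]

section

variable {F : ℕ → ℂ} {G : ℂ → ℂ} {r0 : ℝ}

theorem summ (hG : ∀ t : ℂ, ‖t‖ < r0 → HasSum (fun n => F n * t ^ n) (G t)) {r : ℝ} (h0 : 0 ≤ r)
    (hr : r < r0) : Summable fun n => ‖F n‖ * r ^ n := by
  have h1 := (hG (r : ℂ) (by
    rw [Complex.norm_real, Real.norm_eq_abs, abs_of_nonneg h0]
    exact hr)).summable.norm
  refine h1.congr fun n => ?_
  rw [norm_mul, norm_pow, Complex.norm_real, Real.norm_eq_abs, abs_of_nonneg h0]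

theorem cont (hG : ∀ t : ℂ, ‖t‖ < r0 → HasSum (fun n => F n * t ^ n) (G t)) {r : ℝ} (h0 : 0 ≤ r)
    (hr : r < r0) : ContinuousOn G (Metric.closedBall 0 r) := by
  have h1 : ContinuousOn (fun t => ∑' n, F n * t ^ n) (Metric.closedBall 0 r) := by
    apply continuousOn_tsum (u := fun n => ‖F n‖ * r ^ n)
    · intro n
      exact (continuous_const.mul (continuous_pow n)).continuousOn
    · exact summ hG h0 hr
    · intro n t ht
      rw [mem_closedBall_zero_iff] at ht
      rw [norm_mul, norm_pow]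
      exact mul_le_mul_of_nonneg_left (pow_le_pow_left₀ (norm_nonneg _) ht n) (norm_nonneg _)
  refine h1.congr fun t ht => ?_
  rw [mem_closedBall_zero_iff] at ht
  exact (hG t (lt_of_le_of_lt ht hr)).tsum_eq.symm

theorem cont_cp (r : ℝ) : Continuous (cp r) := by
  unfold cp
  exact continuous_const.mul (Complex.continuous_exp.comp
    (Complex.continuous_ofReal.mul continuous_const))

theorem cont_G (hG : ∀ t : ℂ, ‖t‖ < r0 → HasSum (fun n => F n * t ^ n) (G t)) {r : ℝ}
    (h0 : 0 ≤ r) (hr : r < r0) : Continuous fun x => G (cp r x) := by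
  rw [← continuousOn_univ]
  exact (cont hG h0 hr).comp (cont_cp r).continuousOn fun x _ => by
    rw [mem_closedBall_zero_iff, norm_cp h0]

/-- the Fourier coefficients on the circle -/
theorem coef (hG : ∀ t : ℂ, ‖t‖ < r0 → HasSum (fun n => F n * t ^ n) (G t)) {r : ℝ} (h0 : 0 ≤ r)
    (hr : r < r0) (n : ℕ) :
    ∫ x in (-Real.pi)..Real.pi, G (cp r x) * exp (-((n : ℂ) * I * x)) =
      2 * Real.pi * (F n * r ^ n) := by
  have hS := summ hG h0 hr
  have h1 : HasSum (fun m : ℕ => ∫ x in (-Real.pi)..Real.pi,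
      F m * (cp r x) ^ m * exp (-((n : ℂ) * I * x)))
      (∫ x in (-Real.pi)..Real.pi, G (cp r x) * exp (-((n : ℂ) * I * x))) := by
    apply intervalIntegral.hasSum_integral_of_dominated_convergence
      (fun m _ => ‖F m‖ * r ^ m)
    · intro m
      apply Continuous.aestronglyMeasurable
      exact (continuous_const.mul ((cont_cp r).pow m)).mul
        (Complex.continuous_exp.comp (continuous_const.mul Complex.continuous_ofReal).neg)
    · intro m
      refine Filter.Eventually.of_forall fun x _ => ?_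
      have h2 : -((n : ℂ) * I * x) = ((-(n * x) : ℝ) : ℂ) * I := by
        push_cast
        ring
      rw [norm_mul, norm_mul, norm_pow, norm_cp h0, h2, Complex.norm_exp_ofReal_mul_I, mul_one]
    · exact Filter.Eventually.of_forall fun x _ => hS
    · exact continuous_const.intervalIntegrable _ _
    · refine Filter.Eventually.of_forall fun x _ => ?_
      exact (hG (cp r x) (by rw [norm_cp h0]; exact hr)).mul_right _
  have h2 : ∀ m : ℕ, ∫ x in (-Real.pi)..Real.pi,
      F m * (cp r x) ^ m * exp (-((n : ℂ) * I * x)) =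
      if m = n then 2 * Real.pi * (F n * r ^ n) else 0 := by
    intro m
    have h3 : ∀ x : ℝ, F m * (cp r x) ^ m * exp (-((n : ℂ) * I * x)) =
        (F m * r ^ m) * exp (((m - n : ℤ) : ℂ) * I * x) := by
      intro x
      unfold cp
      rw [mul_pow, ← Complex.exp_nat_mul]
      have h4 : exp (((m - n : ℤ) : ℂ) * I * x) =
          exp ((m : ℂ) * (x * I)) * exp (-((n : ℂ) * I * x)) := by
        rw [← Complex.exp_add]
        congr 1
        push_cast
        ring
      rw [h4]
      ring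
    simp only [h3]
    rw [intervalIntegral.integral_const_mul, int_exp]
    by_cases hmn : m = n
    · rw [if_pos hmn, if_pos (by rw [hmn, sub_self]), hmn]
      ring
    · rw [if_neg hmn, if_neg (by
        intro h
        exact hmn (by exact_mod_cast (sub_eq_zero.1 h))), mul_zero]
  simp only [h2] at h1
  have h3 : HasSum (fun m : ℕ => if m = n then 2 * Real.pi * (F n * (r : ℂ) ^ n) else 0)
      (2 * Real.pi * (F n * r ^ n)) := hasSum_ite_eq n _
  exact h1.unique h3

/-- the trigonometric polynomial -/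
def tp (F : ℕ → ℂ) (K : ℕ) (t : ℂ) : ℂ := ∑ n ∈ Finset.range (K + 1), F n * t ^ n

theorem tp_sum (K : ℕ) (t : ℂ) :
    HasSum (fun n => (if n < K + 1 then F n else 0) * t ^ n) (tp F K t) := by
  have h1 : tp F K t = ∑ n ∈ Finset.range (K + 1), (if n < K + 1 then F n else 0) * t ^ n := by
    unfold tp
    exact Finset.sum_congr rfl fun n hn => by rw [if_pos (Finset.mem_range.1 hn)]
  rw [h1]
  apply hasSum_sum_of_ne_finset_zero
  intro n hn
  rw [Finset.mem_range] at hn
  rw [if_neg hn, zero_mul]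

theorem pairing (hG : ∀ t : ℂ, ‖t‖ < r0 → HasSum (fun n => F n * t ^ n) (G t)) {r : ℝ}
    (h0 : 0 ≤ r) (hr : r < r0) (E : ℕ → ℂ) (K : ℕ) (hE : ∀ n < K + 1, E n = F n) :
    ∫ x in (-Real.pi)..Real.pi, G (cp r x) * conj (tp E K (cp r x)) =
      ((2 * Real.pi * ∑ n ∈ Finset.range (K + 1), ‖F n‖ ^ 2 * r ^ (2 * n) : ℝ) : ℂ) := by
  have h1 : ∀ x : ℝ, G (cp r x) * conj (tp E K (cp r x)) =
      ∑ n ∈ Finset.range (K + 1), (conj (E n) * r ^ n) *
        (G (cp r x) * exp (-((n : ℂ) * I * x))) := by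
    intro x
    unfold tp
    rw [map_sum, Finset.mul_sum]
    refine Finset.sum_congr rfl fun n _ => ?_
    have h2 : conj (cp r x ^ n) = (r : ℂ) ^ n * exp (-((n : ℂ) * I * x)) := by
      unfold cp
      rw [map_pow, map_mul, Complex.conj_ofReal, ← Complex.exp_conj, map_mul, Complex.conj_ofReal,
        Complex.conj_I, mul_pow, ← Complex.exp_nat_mul]
      congr 2
      ring
    rw [map_mul, h2]
    ring
  simp only [h1]
  rw [intervalIntegral.integral_finset_sum]
  · push_cast
    rw [Finset.mul_sum]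
    refine Finset.sum_congr rfl fun n hn => ?_
    rw [intervalIntegral.integral_const_mul, coef hG h0 hr, hE n (Finset.mem_range.1 hn)]
    have h3 : (F n) * conj (F n) = ((‖F n‖ : ℝ) : ℂ) ^ 2 := Complex.mul_conj' (F n)
    calc conj (F n) * (r : ℂ) ^ n * (2 * Real.pi * (F n * r ^ n)) =
        2 * Real.pi * ((F n * conj (F n)) * (r : ℂ) ^ (2 * n)) := by
          rw [two_mul n, pow_add]
          ring
      _ = _ := by rw [h3]
  · intro n _
    apply Continuous.intervalIntegrable
    exact continuous_const.mul ((cont_G hG h0 hr).mul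
      (Complex.continuous_exp.comp (continuous_const.mul Complex.continuous_ofReal).neg))

/-- Bessel's inequality on a circle -/
theorem bessel (hG : ∀ t : ℂ, ‖t‖ < r0 → HasSum (fun n => F n * t ^ n) (G t)) {r : ℝ}
    (h0 : 0 ≤ r) (hr : r < r0) (K : ℕ) :
    2 * Real.pi * ∑ n ∈ Finset.range (K + 1), ‖F n‖ ^ 2 * r ^ (2 * n) ≤
      ∫ x in (-Real.pi)..Real.pi, ‖G (cp r x)‖ ^ 2 := by
  have hpi : -Real.pi ≤ Real.pi := by linarith [Real.pi_pos]
  have hGc := cont_G hG h0 hr
  have hT : ∀ t : ℂ, ‖t‖ < r0 →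
      HasSum (fun n => (if n < K + 1 then F n else 0) * t ^ n) (tp F K t) := fun t _ => tp_sum K t
  have hTc : Continuous fun x => tp F K (cp r x) := cont_G hT h0 hr
  have h1 := pairing hG h0 hr F K fun n _ => rfl
  have h2 := pairing hT h0 hr F K fun n hn => by rw [if_pos hn]
  have h3 : ∑ n ∈ Finset.range (K + 1), ‖(if n < K + 1 then F n else 0 : ℂ)‖ ^ 2 * r ^ (2 * n) =
      ∑ n ∈ Finset.range (K + 1), ‖F n‖ ^ 2 * r ^ (2 * n) :=
    Finset.sum_congr rfl fun n hn => by rw [if_pos (Finset.mem_range.1 hn)]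
  rw [h3] at h2
  set A : ℝ := 2 * Real.pi * ∑ n ∈ Finset.range (K + 1), ‖F n‖ ^ 2 * r ^ (2 * n) with hA
  have hI1 : IntervalIntegrable (fun x => G (cp r x) * conj (tp F K (cp r x))) volume
      (-Real.pi) Real.pi :=
    (hGc.mul (Complex.continuous_conj.comp hTc)).intervalIntegrable _ _
  have hI2 : IntervalIntegrable (fun x => tp F K (cp r x) * conj (tp F K (cp r x))) volume
      (-Real.pi) Real.pi :=
    (hTc.mul (Complex.continuous_conj.comp hTc)).intervalIntegrable _ _
  have h4 : ∫ x in (-Real.pi)..Real.pi, (G (cp r x) * conj (tp F K (cp r x))).re = A := by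
    have h5 := intervalIntegral.intervalIntegral_re (𝕜 := ℂ) hI1
    have h6 := congrArg Complex.re h1
    rw [Complex.ofReal_re] at h6
    rw [← h6]
    exact h5
  have h5 : ∫ x in (-Real.pi)..Real.pi, ‖tp F K (cp r x)‖ ^ 2 = A := by
    have h5 := intervalIntegral.intervalIntegral_re (𝕜 := ℂ) hI2
    have h6 := congrArg Complex.re h2
    rw [Complex.ofReal_re] at h6
    rw [← h6]
    refine Eq.trans ?_ h5
    refine intervalIntegral.integral_congr fun x _ => ?_
    show ‖tp F K (cp r x)‖ ^ 2 = (tp F K (cp r x) * conj (tp F K (cp r x))).re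
    rw [Complex.mul_conj', ← Complex.ofReal_pow, Complex.ofReal_re]
  have h6 : 0 ≤ ∫ x in (-Real.pi)..Real.pi, ‖G (cp r x) - tp F K (cp r x)‖ ^ 2 :=
    intervalIntegral.integral_nonneg hpi fun x _ => by positivity
  have h7 : ∀ x : ℝ, ‖G (cp r x) - tp F K (cp r x)‖ ^ 2 = ‖G (cp r x)‖ ^ 2 +
      ‖tp F K (cp r x)‖ ^ 2 - 2 * (G (cp r x) * conj (tp F K (cp r x))).re := by
    intro x
    rw [Complex.sq_norm, Complex.normSq_sub, Complex.sq_norm, Complex.sq_norm]
  simp only [h7] at h6
  have hn1 : IntervalIntegrable (fun x => ‖G (cp r x)‖ ^ 2) volume (-Real.pi) Real.pi :=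
    (hGc.norm.pow 2).intervalIntegrable _ _
  have hn2 : IntervalIntegrable (fun x => ‖tp F K (cp r x)‖ ^ 2) volume (-Real.pi) Real.pi :=
    (hTc.norm.pow 2).intervalIntegrable _ _
  have hn3 : IntervalIntegrable (fun x => 2 * (G (cp r x) * conj (tp F K (cp r x))).re) volume
      (-Real.pi) Real.pi :=
    (continuous_const.mul (Complex.continuous_re.comp
      (hGc.mul (Complex.continuous_conj.comp hTc)))).intervalIntegrable _ _
  rw [intervalIntegral.integral_sub (hn1.add hn2) hn3, intervalIntegral.integral_add hn1 hn2,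
    intervalIntegral.integral_const_mul, h4, h5] at h6
  linarith

end

/-- polar coordinates on an annulus -/
theorem annulus {G : ℂ → ℂ} {r1 r2 : ℝ} (h1 : 0 < r1) (h12 : r1 < r2)
    (hc : ContinuousOn G (Metric.closedBall 0 r2)) :
    IntegrableOn (fun q : ℝ × ℝ => q.1⁻¹ * ‖G (cp q.1 q.2)‖ ^ 2)
      (Set.Ioo r1 r2 ×ˢ Set.Ioo (-Real.pi) Real.pi) ∧
    ∫ t in {t : ℂ | r1 < ‖t‖ ∧ ‖t‖ < r2}, ‖G t‖ ^ 2 / ‖t‖ ^ 2 =
      ∫ q in Set.Ioo r1 r2 ×ˢ Set.Ioo (-Real.pi) Real.pi, q.1⁻¹ * ‖G (cp q.1 q.2)‖ ^ 2 := by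
  have hm : MeasurableSet {t : ℂ | r1 < ‖t‖ ∧ ‖t‖ < r2} :=
    (measurableSet_lt measurable_const measurable_norm).inter
      (measurableSet_lt measurable_norm measurable_const)
  constructor
  · have h3 : ContinuousOn (fun q : ℝ × ℝ => q.1⁻¹ * ‖G (cp q.1 q.2)‖ ^ 2)
        (Set.Icc r1 r2 ×ˢ Set.Icc (-Real.pi) Real.pi) := by
      apply ContinuousOn.mul
      · exact continuousOn_fst.inv₀ fun q hq => (lt_of_lt_of_le h1 hq.1.1).ne'
      · apply ContinuousOn.pow
        apply ContinuousOn.norm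
        apply hc.comp
        · unfold cp
          exact ((Complex.continuous_ofReal.comp continuous_fst).mul
            (Complex.continuous_exp.comp ((Complex.continuous_ofReal.comp continuous_snd).mul
              continuous_const))).continuousOn
        · intro q hq
          rw [mem_closedBall_zero_iff, norm_cp (h1.le.trans hq.1.1)]
          exact hq.1.2
    exact (h3.integrableOn_compact (isCompact_Icc.prod isCompact_Icc)).mono_set
      (Set.prod_mono Set.Ioo_subset_Icc_self Set.Ioo_subset_Icc_self)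
  · rw [← integral_indicator hm, ← Complex.integral_comp_polarCoord_symm]
    have h3 : ∀ q ∈ polarCoord.target,
        q.1 • ({t : ℂ | r1 < ‖t‖ ∧ ‖t‖ < r2}.indicator (fun t => ‖G t‖ ^ 2 / ‖t‖ ^ 2)
          (Complex.polarCoord.symm q)) =
        (Set.Ioo r1 r2 ×ˢ (Set.univ : Set ℝ)).indicator
          (fun q => q.1⁻¹ * ‖G (cp q.1 q.2)‖ ^ 2) q := by
      intro q hq
      have hq1 : 0 < q.1 := hq.1
      have h4 : Complex.polarCoord.symm q = cp q.1 q.2 := by
        rw [Complex.polarCoord_symm_apply]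
        unfold cp
        rw [Complex.exp_mul_I, Complex.ofReal_cos, Complex.ofReal_sin]
      rw [h4]
      by_cases h5 : q.1 ∈ Set.Ioo r1 r2
      · rw [Set.indicator_of_mem (by
          show r1 < ‖cp q.1 q.2‖ ∧ ‖cp q.1 q.2‖ < r2
          rw [norm_cp hq1.le]
          exact h5), Set.indicator_of_mem (Set.mk_mem_prod h5 (Set.mem_univ _)), norm_cp hq1.le,
          smul_eq_mul]
        field_simp
      · rw [Set.indicator_of_notMem (by
          intro h
          have h6 : r1 < ‖cp q.1 q.2‖ ∧ ‖cp q.1 q.2‖ < r2 := h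
          rw [norm_cp hq1.le] at h6
          exact h5 h6), Set.indicator_of_notMem (fun h => h5 h.1), smul_zero]
    rw [setIntegral_congr_fun polarCoord.open_target.measurableSet h3,
      setIntegral_indicator (measurableSet_Ioo.prod MeasurableSet.univ)]
    congr 2
    ext q
    constructor
    · rintro ⟨h4, h5⟩
      exact ⟨h5.1, h4.2⟩
    · rintro ⟨h4, h5⟩
      exact ⟨⟨lt_trans h1 h4.1, h5⟩, h4, trivial⟩

/-- **BES** -/
theorem bes : BesStmt := by
  intro F G r0 r1 r2 h1 h12 h20 hG K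
  have hpi : -Real.pi ≤ Real.pi := by linarith [Real.pi_pos]
  obtain ⟨hI, hE⟩ := annulus h1 h12 (cont hG (h1.le.trans h12.le) h20)
  rw [hE]
  rw [Measure.volume_eq_prod] at hI ⊢
  rw [setIntegral_prod _ hI]
  have hI' : IntegrableOn (fun r : ℝ => ∫ x in Set.Ioo (-Real.pi) Real.pi,
      r⁻¹ * ‖G (cp r x)‖ ^ 2) (Set.Ioo r1 r2) := by
    unfold IntegrableOn at hI ⊢
    rw [← Measure.prod_restrict] at hI
    exact hI.integral_prod_left
  have hle : ∫ r in Set.Ioo r1 r2, (2 * Real.pi * ∑ n ∈ Finset.range K,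
      ‖F (n + 1)‖ ^ 2 * r ^ (2 * n + 1)) ≤ ∫ r in Set.Ioo r1 r2,
      ∫ x in Set.Ioo (-Real.pi) Real.pi, r⁻¹ * ‖G (cp r x)‖ ^ 2 := by
    apply setIntegral_mono_on _ hI' measurableSet_Ioo
    · intro r hr
      have hr0 : 0 < r := lt_trans h1 hr.1
      have h3 := bessel hG hr0.le (hr.2.trans h20) K
      rw [integral_const_mul, ← integral_Ioc_eq_integral_Ioo,
        ← intervalIntegral.integral_of_le hpi]
      have h4 : r⁻¹ * (2 * Real.pi * ∑ n ∈ Finset.range (K + 1), ‖F n‖ ^ 2 * r ^ (2 * n)) ≤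
          r⁻¹ * ∫ x in (-Real.pi)..Real.pi, ‖G (cp r x)‖ ^ 2 :=
        mul_le_mul_of_nonneg_left h3 (inv_nonneg.2 hr0.le)
      refine le_trans ?_ h4
      rw [Finset.sum_range_succ', mul_left_comm]
      apply mul_le_mul_of_nonneg_left _ (by positivity)
      rw [mul_add, Finset.mul_sum]
      have h5 : ∀ n ∈ Finset.range K, ‖F (n + 1)‖ ^ 2 * r ^ (2 * n + 1) =
          r⁻¹ * (‖F (n + 1)‖ ^ 2 * r ^ (2 * (n + 1))) := by
        intro n _
        have h6 : r ^ (2 * (n + 1)) = r ^ (2 * n + 1) * r := by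
          rw [← pow_succ]
          congr 1
        rw [h6]
        field_simp
      rw [Finset.sum_congr rfl h5]
      have h6 : 0 ≤ r⁻¹ * (‖F 0‖ ^ 2 * r ^ (2 * 0)) := by positivity
      linarith
    · have h3 : Continuous fun r : ℝ => 2 * Real.pi * ∑ n ∈ Finset.range K,
          ‖F (n + 1)‖ ^ 2 * r ^ (2 * n + 1) :=
        continuous_const.mul (continuous_finset_sum _ fun n _ =>
          continuous_const.mul (continuous_pow _))
      exact (h3.continuousOn.integrableOn_compact isCompact_Icc).mono_set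
        Set.Ioo_subset_Icc_self
  refine le_trans (le_of_eq ?_) hle
  rw [integral_const_mul, ← integral_Ioc_eq_integral_Ioo,
    ← intervalIntegral.integral_of_le h12.le, intervalIntegral.integral_finset_sum]
  · congr 1
    refine Finset.sum_congr rfl fun n _ => ?_
    rw [intervalIntegral.integral_const_mul, integral_pow]
    congr 1
    have h3 : 2 * n + 1 + 1 = 2 * (n + 1) := by ring
    rw [h3]
    push_cast
    ring
  · intro n _
    exact (continuous_const.mul (continuous_pow _)).intervalIntegrable _ _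

end Pool.Agent.GLE.H92
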